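import Pool.Agent.W8.LS.Stm

/-!
LS-InjA, LS-InjB: injectivity of the parametrisations near the exceptional surfaces.
-/

open scoped Topology ContDiff
open Complex (I)

namespace Pool.Agent.W705.LS

open Pool.Agent.W8.LS

theorem small {u v : ℂ} (h2 : ‖Pool.Agent.W8.LS.sq u‖ ^ 2 = 2 * ‖u‖)
    (h : ‖u‖ * (1 + ‖v‖ ^ 2) < 1 / 200) :
    ‖Pool.Agent.W8.LS.sq u‖ ≤ 1 / 8 ∧ ‖v * Pool.Agent.W8.LS.sq u‖ ≤ 1 / 8 := by
  have h3 : 0 ≤ ‖u‖ * ‖v‖ ^ 2 := by positivity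
  have h4 : 0 ≤ ‖u‖ := norm_nonneg u
  constructor
  · apply abs_le_of_sq_le_sq' (by nlinarith) (by norm_num) |>.2
  · rw [norm_mul]
    have : (‖v‖ * ‖Pool.Agent.W8.LS.sq u‖) ^ 2 ≤ (1 / 8) ^ 2 := by
      rw [mul_pow, h2]; nlinarith
    exact (abs_le_of_sq_le_sq' this (by norm_num)).2

theorem InjA_proof : InjA := by
  intro hF s c k l m r Q hQ Q' hQ' h
  obtain ⟨-, hA, -, hpt, -, -, -, -, hNS, -, -, hsq, -, -, -⟩ := hF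
  obtain ⟨hs1, hs0, hs3, hs4, -, -⟩ := hsq
  simp only [chA] at h
  rw [hpt] at h
  obtain ⟨hrel, hd⟩ := h
  obtain ⟨a1, a2, a3⟩ := hQ
  obtain ⟨b1, b2, b3⟩ := hQ'
  obtain ⟨c1, c2⟩ := small (hs4 Q.2.2.1) a3
  obtain ⟨c3, c4⟩ := small (hs4 Q'.2.2.1) b3
  have d1 : |Q.1 - Q'.1| < 1 / 2 := by
    rw [abs_lt] at a1 b1 ⊢; constructor <;> linarith [a1.1, a1.2, b1.1, b1.2]
  have d2 : |Q.2.1 - Q'.2.1| < 1 / 2 := by
    rw [abs_lt] at a2 b2 ⊢; constructor <;> linarith [a2.1, a2.2, b2.1, b2.2]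
  obtain ⟨e1, e2, e3⟩ := hNS hA k l m r Q.1 Q.2.1 Q'.1 Q'.2.1 (Pool.Agent.W8.LS.sq Q.2.2.1)
    (Q.2.2.2 * Pool.Agent.W8.LS.sq Q.2.2.1) (Pool.Agent.W8.LS.sq Q'.2.2.1)
    (Q'.2.2.2 * Pool.Agent.W8.LS.sq Q'.2.2.1) c1 c2 c3 c4 d1 d2 hrel
  have hu : Q.2.2.1 = Q'.2.2.1 := by
    have f1 := hs1 Q.2.2.1
    have f2 := hs1 Q'.2.2.1
    have f3 : Pool.Agent.W8.LS.sq Q'.2.2.1 ^ 2 = Pool.Agent.W8.LS.sq Q.2.2.1 ^ 2 := by
      rcases e3 with ⟨g1, -⟩ | ⟨g1, -⟩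
      · rw [g1]
      · rw [g1]; ring
    rw [f1, f2] at f3
    exact (mul_left_cancel₀ two_ne_zero f3).symm
  have hv : Q.2.2.2 = Q'.2.2.2 := by
    by_cases h0 : Q.2.2.1 = 0
    · have hsing : sing (site k l m r (Q.1, Q.2.1, Pool.Agent.W8.LS.sq Q.2.2.1,
          Q.2.2.2 * Pool.Agent.W8.LS.sq Q.2.2.1)) :=
        ⟨k, l, m, r, Q.1, Q.2.1, by rw [h0, hs0, mul_zero]⟩
      exact Option.some_injective _ (hd hsing)
    · have h1 : Pool.Agent.W8.LS.sq Q.2.2.1 ≠ 0 := fun h => h0 (hs3 _ h)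
      rcases e3 with ⟨g1, g2⟩ | ⟨g1, g2⟩
      · rw [g1] at g2
        exact (mul_right_cancel₀ h1 g2).symm
      · rw [g1] at g2
        have : Q'.2.2.2 * Pool.Agent.W8.LS.sq Q.2.2.1 = Q.2.2.2 * Pool.Agent.W8.LS.sq Q.2.2.1 := by
          linear_combination -g2
        exact (mul_right_cancel₀ h1 this).symm
  exact Prod.ext e1 (Prod.ext e2 (Prod.ext hu hv))

theorem InjB_proof : InjB := by
  intro hF s c k l m r Q hQ Q' hQ' h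
  obtain ⟨-, hA, -, hpt, -, -, -, -, hNS, -, -, hsq, -, -, -⟩ := hF
  obtain ⟨hs1, hs0, hs3, hs4, -, -⟩ := hsq
  simp only [chB] at h
  rw [hpt] at h
  obtain ⟨hrel, hd⟩ := h
  obtain ⟨a1, a2, a3⟩ := hQ
  obtain ⟨b1, b2, b3⟩ := hQ'
  obtain ⟨c1, c2⟩ := small (hs4 Q.2.2.2) a3
  obtain ⟨c3, c4⟩ := small (hs4 Q'.2.2.2) b3
  have d1 : |Q.1 - Q'.1| < 1 / 2 := by
    rw [abs_lt] at a1 b1 ⊢; constructor <;> linarith [a1.1, a1.2, b1.1, b1.2]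
  have d2 : |Q.2.1 - Q'.2.1| < 1 / 2 := by
    rw [abs_lt] at a2 b2 ⊢; constructor <;> linarith [a2.1, a2.2, b2.1, b2.2]
  obtain ⟨e1, e2, e3⟩ := hNS hA k l m r Q.1 Q.2.1 Q'.1 Q'.2.1
    (Q.2.2.1 * Pool.Agent.W8.LS.sq Q.2.2.2) (Pool.Agent.W8.LS.sq Q.2.2.2)
    (Q'.2.2.1 * Pool.Agent.W8.LS.sq Q'.2.2.2) (Pool.Agent.W8.LS.sq Q'.2.2.2)
    c2 c1 c4 c3 d1 d2 hrel
  have hu : Q.2.2.2 = Q'.2.2.2 := by
    have f1 := hs1 Q.2.2.2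
    have f2 := hs1 Q'.2.2.2
    have f3 : Pool.Agent.W8.LS.sq Q'.2.2.2 ^ 2 = Pool.Agent.W8.LS.sq Q.2.2.2 ^ 2 := by
      rcases e3 with ⟨-, g1⟩ | ⟨-, g1⟩
      · rw [g1]
      · rw [g1]; ring
    rw [f1, f2] at f3
    exact (mul_left_cancel₀ two_ne_zero f3).symm
  have hv : Q.2.2.1 = Q'.2.2.1 := by
    by_cases h0 : Q.2.2.2 = 0
    · have hsing : sing (site k l m r (Q.1, Q.2.1, Q.2.2.1 * Pool.Agent.W8.LS.sq Q.2.2.2,
          Pool.Agent.W8.LS.sq Q.2.2.2)) :=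
        ⟨k, l, m, r, Q.1, Q.2.1, by rw [h0, hs0, mul_zero]⟩
      have hd := hd hsing
      by_cases h0 : Q.2.2.1 = 0
      · by_cases h0' : Q'.2.2.1 = 0
        · rw [h0, h0']
        · rw [if_pos h0, if_neg h0'] at hd
          exact absurd hd (by simp)
      · by_cases h0' : Q'.2.2.1 = 0
        · rw [if_neg h0, if_pos h0'] at hd
          exact absurd hd (by simp)
        · rw [if_neg h0, if_neg h0'] at hd
          exact inv_injective (Option.some_injective _ hd)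
    · have h1 : Pool.Agent.W8.LS.sq Q.2.2.2 ≠ 0 := fun h => h0 (hs3 _ h)
      rcases e3 with ⟨g2, g1⟩ | ⟨g2, g1⟩
      · rw [g1] at g2
        exact (mul_right_cancel₀ h1 g2).symm
      · rw [g1] at g2
        have : Q'.2.2.1 * Pool.Agent.W8.LS.sq Q.2.2.2 = Q.2.2.1 * Pool.Agent.W8.LS.sq Q.2.2.2 := by
          linear_combination -g2
        exact (mul_right_cancel₀ h1 this).symm
  exact Prod.ext e1 (Prod.ext e2 (Prod.ext hv hu))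

end Pool.Agent.W705.LS
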