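import Pool.Agent.W8.LS.Stm

/-!
LS-LTAA: transitions between two parametrisations of type A at exceptional points.
-/

open scoped Topology ContDiff
open Complex (I)

namespace Pool.Agent.W705.LS

open Pool.Agent.W8.LS

theorem LTAA_proof : LTAA := by
  intro hF s c s' c' v v' k l m r k' l' m' r' h
  obtain ⟨hE, hA, -, hpt, -, -, hflip, -, -, -, hSR, hsq, -, -, -⟩ := hF
  have hsq0 : Pool.Agent.W8.LS.sq 0 = 0 := hsq.2.1
  have h1 := h
  simp only [chA] at h1
  rw [hpt] at h1
  obtain ⟨hrel, hd⟩ := h1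
  rw [hsq0, mul_zero, mul_zero] at hrel
  have hsing : sing (site k l m r (s, c, Pool.Agent.W8.LS.sq 0, v * Pool.Agent.W8.LS.sq 0)) :=
    ⟨k, l, m, r, s, c, by rw [hsq0, mul_zero]⟩
  have hv : v = v' := Option.some_injective _ (hd hsing)
  obtain ⟨e, ds, dc, he, hs, hc, hall⟩ := hSR hA k l m r k' l' m' r' s c s' c' hrel
  have key : ∀ (s₁ c₁ : ℝ) (z w : ℂ), rel (site k' l' m' r' (s₁ + ds, c₁ + dc, z, w))
      (site k l m r (s₁, c₁, z, w)) := by
    intro s₁ c₁ z w
    apply hE.symm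
    have h2 := hall s₁ c₁ z w
    rcases he with rfl | rfl
    · simpa using h2
    · refine hE.trans h2 ?_
      have h3 := (hflip k' l' m' r' (s₁ + ds) (c₁ + dc) (-z) (-w)).1
      rw [neg_neg, neg_neg] at h3
      have h4 : ∀ x : ℂ, ((-1 : ℤ) : ℂ) * x = -x := by intro x; push_cast; ring
      rw [h4, h4]
      exact h3
  refine ⟨fun Z => Z + (ds, dc, 0, 0), ?_, Filter.Eventually.of_forall fun Z => ⟨?_, ?_, ?_⟩⟩
  · show ((s, c, 0, v) : V) + (ds, dc, 0, 0) = (s', c', 0, v')
    rw [hs, hc, hv]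
    simp
  · exact (contDiff_id.add contDiff_const).contDiffAt
  · intro a b
    have : fderiv ℝ (fun Z : V => Z + ((ds, dc, 0, 0) : V)) Z = ContinuousLinearMap.id ℝ V := by
      rw [fderiv_add_const]
      exact fderiv_id
    rw [this]
    rfl
  · simp only [chA]
    rw [hpt]
    constructor
    · have := key Z.1 Z.2.1 (Pool.Agent.W8.LS.sq Z.2.2.1)
        (Z.2.2.2 * Pool.Agent.W8.LS.sq Z.2.2.1)
      simpa using this
    · intro _
      simp

end Pool.Agent.W705.LS
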