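import Pool.Agent.W8.LS.Stm

/-!
LS-LTAB: transitions between parametrisations of types A and B at exceptional points.
-/

open scoped Topology ContDiff
open Complex (I)

namespace Pool.Agent.W705.LS

open Pool.Agent.W8.LS

/-- the transition map -/
noncomputable def tab (ds dc : ℝ) (Z : V) : V :=
  (Z.1 + ds, Z.2.1 + dc, (Z.2.2.2)⁻¹, Z.2.2.1 * Z.2.2.2 ^ 2)

/-- coordinates -/
noncomputable def p3 : V →L[ℝ] ℂ :=
  (ContinuousLinearMap.fst ℝ ℂ ℂ).comp ((ContinuousLinearMap.snd ℝ ℝ (ℂ × ℂ)).comp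
    (ContinuousLinearMap.snd ℝ ℝ (ℝ × ℂ × ℂ)))

/-- coordinates -/
noncomputable def p4 : V →L[ℝ] ℂ :=
  (ContinuousLinearMap.snd ℝ ℂ ℂ).comp ((ContinuousLinearMap.snd ℝ ℝ (ℂ × ℂ)).comp
    (ContinuousLinearMap.snd ℝ ℝ (ℝ × ℂ × ℂ)))

/-- coordinates -/
noncomputable def p1 : V →L[ℝ] ℝ := ContinuousLinearMap.fst ℝ ℝ (ℝ × ℂ × ℂ)

/-- coordinates -/
noncomputable def p2 : V →L[ℝ] ℝ :=
  (ContinuousLinearMap.fst ℝ ℝ (ℂ × ℂ)).comp (ContinuousLinearMap.snd ℝ ℝ (ℝ × ℂ × ℂ))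

theorem fderiv_tab (ds dc : ℝ) (Z : V) (hZ : Z.2.2.2 ≠ 0) (a : V) :
    fderiv ℝ (tab ds dc) Z a =
      (a.1, a.2.1, -(a.2.2.2 / Z.2.2.2 ^ 2), Z.2.2.1 * (2 * Z.2.2.2 * a.2.2.2) +
        a.2.2.1 * Z.2.2.2 ^ 2) := by
  have h1 : HasFDerivAt (fun Z : V => Z.1 + ds) p1 Z := (p1.hasFDerivAt (x := Z)).add_const ds
  have h2 : HasFDerivAt (fun Z : V => Z.2.1 + dc) p2 Z := (p2.hasFDerivAt (x := Z)).add_const dc
  have h3 := (((hasDerivAt_inv hZ).hasFDerivAt.restrictScalars ℝ).comp Z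
    (p4.hasFDerivAt (x := Z)) : HasFDerivAt (fun Z : V => (Z.2.2.2)⁻¹) _ Z)
  have h5 : HasFDerivAt (fun Z : V => Z.2.2.2) p4 Z := p4.hasFDerivAt
  have h6 : HasFDerivAt (fun Z : V => Z.2.2.1) p3 Z := p3.hasFDerivAt
  have h4 := h6.mul (h5.pow 2)
  have h := h1.prodMk (h2.prodMk (h3.prodMk h4))
  have h' : HasFDerivAt (tab ds dc) _ Z := h
  rw [h'.fderiv]
  refine Prod.ext rfl (Prod.ext rfl (Prod.ext ?_ ?_))
  · show (a.2.2.2 : ℂ) • (-(Z.2.2.2 ^ 2)⁻¹) = _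
    rw [smul_eq_mul]
    ring
  · simp only [ContinuousLinearMap.prod_apply, add_apply, smul_apply, smul_eq_mul]
    show Z.2.2.1 * _ + Z.2.2.2 ^ 2 * a.2.2.1 = _
    have : p4 a = a.2.2.2 := rfl
    simp [this]
    ring

theorem LTAB_proof : LTAB := by
  intro hF s c s' c' v v' k l m r k' l' m' r' h
  obtain ⟨hE, hA, -, hpt, -, -, hflip, -, -, -, hSR, hsq, -, -, -⟩ := hF
  obtain ⟨hs1, hsq0, -, -, -, -⟩ := hsq
  have h1 := h
  simp only [chA, chB] at h1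
  rw [hpt] at h1
  obtain ⟨hrel, hd⟩ := h1
  rw [hsq0, mul_zero, mul_zero] at hrel
  have hsing : sing (site k l m r (s, c, Pool.Agent.W8.LS.sq 0, v * Pool.Agent.W8.LS.sq 0)) :=
    ⟨k, l, m, r, s, c, by rw [hsq0, mul_zero]⟩
  have hd := hd hsing
  have hv0' : v' ≠ 0 := by
    intro h0
    rw [if_pos h0] at hd
    exact absurd hd (by simp)
  rw [if_neg hv0'] at hd
  have hv : v = v'⁻¹ := Option.some_injective _ hd
  have hv0 : v ≠ 0 := by rw [hv]; exact inv_ne_zero hv0'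
  obtain ⟨e, ds, dc, he, hs, hc, hall⟩ := hSR hA k l m r k' l' m' r' s c s' c' hrel
  have hfl : ∀ (s₁ c₁ : ℝ) (z w : ℂ), rel (site k' l' m' r' (s₁, c₁, -z, -w))
      (site k' l' m' r' (s₁, c₁, z, w)) := by
    intro s₁ c₁ z w
    have h3 := (hflip k' l' m' r' s₁ c₁ (-z) (-w)).1
    rw [neg_neg, neg_neg] at h3
    exact h3
  have key : ∀ (s₁ c₁ : ℝ) (z w : ℂ), rel (site k' l' m' r' (s₁ + ds, c₁ + dc, z, w))
      (site k l m r (s₁, c₁, z, w)) := by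
    intro s₁ c₁ z w
    apply hE.symm
    have h2 := hall s₁ c₁ z w
    rcases he with rfl | rfl
    · simpa using h2
    · refine hE.trans h2 ?_
      have h4 : ∀ x : ℂ, ((-1 : ℤ) : ℂ) * x = -x := by intro x; push_cast; ring
      rw [h4, h4]
      exact hfl _ _ _ _
  have hev : ∀ᶠ Z : V in 𝓝 ((s, c, 0, v) : V), Z.2.2.2 ≠ 0 := by
    have hcont : ContinuousAt (fun Z : V => Z.2.2.2) ((s, c, 0, v) : V) := by fun_prop
    exact hcont.eventually_ne hv0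
  refine ⟨tab ds dc, ?_, hev.mono fun Z hZ => ⟨?_, ?_, ?_⟩⟩
  · show ((s + ds, c + dc, v⁻¹, 0 * v ^ 2) : V) = (s', c', v', 0)
    rw [hs, hc, hv, inv_inv, zero_mul]
  · have h1 : ContDiffAt ℝ ∞ (fun Z : V => Z.1 + ds) Z := by fun_prop
    have h2 : ContDiffAt ℝ ∞ (fun Z : V => Z.2.1 + dc) Z := by fun_prop
    have h5 : ContDiffAt ℝ ∞ (fun Z : V => Z.2.2.2) Z := by fun_prop
    have h6 : ContDiffAt ℝ ∞ (fun Z : V => Z.2.2.1) Z := by fun_prop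
    exact h1.prodMk (h2.prodMk ((h5.inv hZ).prodMk (h6.mul (h5.pow 2))))
  · intro a b
    rw [fderiv_tab ds dc Z hZ, fderiv_tab ds dc Z hZ]
    unfold om
    simp only
    congr 2
    field_simp
    ring
  · simp only [tab, chA, chB]
    rw [hpt]
    have hw : (Z.2.2.2)⁻¹ ≠ 0 := inv_ne_zero hZ
    refine ⟨?_, fun _ => (if_neg hw).trans (by rw [inv_inv])⟩
    have h7 : Pool.Agent.W8.LS.sq (Z.2.2.1 * Z.2.2.2 ^ 2) ^ 2 =
        (Z.2.2.2 * Pool.Agent.W8.LS.sq Z.2.2.1) ^ 2 := by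
      rw [hs1, mul_pow, hs1]; ring
    rcases sq_eq_sq_iff_eq_or_eq_neg.1 h7 with h8 | h8
    · rw [h8, inv_mul_cancel_left₀ hZ]
      exact key _ _ _ _
    · rw [h8, mul_neg, inv_mul_cancel_left₀ hZ]
      exact hE.trans (hfl _ _ _ _) (key _ _ _ _)

end Pool.Agent.W705.LS
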